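import Pool.Agent.P.MP_930073_lc.Defs

/-!
Closure properties of analytic sets, a universal analytic set, and an analytic non-Borel set.
-/

namespace Pool.Agent.P.MP_930073_lc

open Set MeasureTheory

variable {X Y : Type} [MeasurableSpace X] [MeasurableSpace Y]

theorem isAnalytic_of_measurableSet {A : Set X} (hA : MeasurableSet A) : IsAnalytic A := by
  refine ⟨Prod.fst ⁻¹' A, measurable_fst hA, ?_⟩
  ext x
  constructor
  · intro hx
    exact ⟨(x, fun _ => 0), hx, rfl⟩
  · rintro ⟨p, hp, rfl⟩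
    exact hp

theorem IsAnalytic.preimage {A : Set Y} (hA : IsAnalytic A) {f : X → Y} (hf : Measurable f) :
    IsAnalytic (f ⁻¹' A) := by
  obtain ⟨C, hC, rfl⟩ := hA
  refine ⟨(Prod.map f id) ⁻¹' C, (hf.prodMap measurable_id) hC, ?_⟩
  ext x
  constructor
  · rintro ⟨⟨y, t⟩, hp, h⟩
    simp only at h
    subst h
    exact ⟨(x, t), hp, rfl⟩
  · rintro ⟨⟨x', t⟩, hp, rfl⟩
    exact ⟨(f x', t), hp, rfl⟩

theorem isAnalytic_iUnion {A : ℕ → Set X} (hA : ∀ n, IsAnalytic (A n)) :
    IsAnalytic (⋃ n, A n) := by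
  choose C hC hAC using hA
  refine ⟨⋃ n, C n, MeasurableSet.iUnion hC, ?_⟩
  rw [image_iUnion]
  exact iUnion_congr hAC

theorem isAnalytic_iInter {A : ℕ → Set X} (hA : ∀ n, IsAnalytic (A n)) :
    IsAnalytic (⋂ n, A n) := by
  choose C hC hAC using hA
  refine ⟨⋂ n, (fun p : X × (ℕ → ℕ) => (p.1, fun k => p.2 (Nat.pair n k))) ⁻¹' C n, ?_, ?_⟩
  · refine MeasurableSet.iInter fun n => ?_
    have : Measurable (fun p : X × (ℕ → ℕ) => (p.1, fun k => p.2 (Nat.pair n k))) := by
      refine measurable_fst.prodMk (measurable_pi_lambda _ fun k => ?_)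
      exact (measurable_pi_apply _).comp measurable_snd
    exact this (hC n)
  · ext x
    simp only [mem_iInter, mem_image, mem_preimage]
    constructor
    · intro hx
      have : ∀ n, ∃ t, (x, t) ∈ C n := by
        intro n
        have := hx n
        rw [hAC n] at this
        obtain ⟨⟨x', t⟩, hp, rfl⟩ := this
        exact ⟨t, hp⟩
      choose t ht using this
      refine ⟨(x, fun m => t (Nat.unpair m).1 (Nat.unpair m).2), fun n => ?_, rfl⟩
      simpa [Nat.unpair_pair] using ht n
    · rintro ⟨p, hp, rfl⟩ n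
      rw [hAC n]
      exact ⟨_, hp n, rfl⟩

theorem IsAnalytic.inter {A B : Set X} (hA : IsAnalytic A) (hB : IsAnalytic B) :
    IsAnalytic (A ∩ B) := by
  have : A ∩ B = ⋂ n : ℕ, (if n = 0 then A else B) := by
    ext x
    simp only [mem_inter_iff, mem_iInter]
    constructor
    · rintro ⟨h1, h2⟩ n
      split_ifs <;> assumption
    · intro h
      exact ⟨by simpa using h 0, by simpa using h 1⟩
  rw [this]
  refine isAnalytic_iInter fun n => ?_
  split_ifs <;> assumption

theorem IsAnalytic.union {A B : Set X} (hA : IsAnalytic A) (hB : IsAnalytic B) :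
    IsAnalytic (A ∪ B) := by
  obtain ⟨C, hC, rfl⟩ := hA
  obtain ⟨D, hD, rfl⟩ := hB
  exact ⟨C ∪ D, hC.union hD, (image_union _ _ _).symm⟩

/-- The projection of a Borel set along any standard Borel space is analytic. -/
theorem isAnalytic_fst_image {W : Type} [MeasurableSpace W] [StandardBorelSpace W]
    {C : Set (X × W)} (hC : MeasurableSet C) : IsAnalytic (Prod.fst '' C) := by
  cases isEmpty_or_nonempty W with
  | inl h =>
    have : C = ∅ := Set.eq_empty_of_isEmpty C
    rw [this, image_empty]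
    exact isAnalytic_of_measurableSet MeasurableSet.empty
  | inr h =>
    let := upgradeStandardBorel W
    obtain ⟨g, g_cont, hg⟩ : ∃ g : (ℕ → ℕ) → W, Continuous g ∧ Function.Surjective g :=
      PolishSpace.exists_nat_nat_continuous_surjective W
    have hgm : Measurable g := g_cont.measurable
    refine ⟨(Prod.map id g) ⁻¹' C, (measurable_id.prodMap hgm) hC, ?_⟩
    ext x
    constructor
    · rintro ⟨⟨x', w⟩, hp, rfl⟩
      obtain ⟨t, rfl⟩ := hg w
      exact ⟨(x', t), hp, rfl⟩
    · rintro ⟨⟨x', t⟩, hp, rfl⟩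
      exact ⟨(x', g t), hp, rfl⟩

theorem IsAnalytic.fst_image {W : Type} [MeasurableSpace W] [StandardBorelSpace W]
    {A : Set (X × W)} (hA : IsAnalytic A) : IsAnalytic (Prod.fst '' A) := by
  obtain ⟨C, hC, rfl⟩ := hA
  have h := isAnalytic_fst_image (X := X) (W := W × (ℕ → ℕ))
    (C := (fun p : X × (W × (ℕ → ℕ)) => ((p.1, p.2.1), p.2.2)) ⁻¹' C)
    (((measurable_fst.prodMk (measurable_fst.comp measurable_snd)).prodMk
      (measurable_snd.comp measurable_snd)) hC)
  convert h using 1
  ext x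
  constructor
  · rintro ⟨⟨x', w⟩, ⟨⟨⟨x'', w'⟩, t⟩, hp, h1⟩, rfl⟩
    simp only [Prod.mk.injEq] at h1
    obtain ⟨rfl, rfl⟩ := h1
    exact ⟨(x'', (w', t)), hp, rfl⟩
  · rintro ⟨⟨x', w, t⟩, hp, rfl⟩
    exact ⟨(x', w), ⟨((x', w), t), hp, rfl⟩, rfl⟩

theorem IsAnalytic.image [StandardBorelSpace X] [StandardBorelSpace Y] {A : Set X}
    (hA : IsAnalytic A) {f : X → Y} (hf : Measurable f) : IsAnalytic (f '' A) := by
  have h1 : IsAnalytic ({p : Y × X | p.1 = f p.2} ∩ Prod.snd ⁻¹' A) := by
    refine IsAnalytic.inter (isAnalytic_of_measurableSet ?_) (hA.preimage measurable_snd)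
    exact measurableSet_eq_fun measurable_fst (hf.comp measurable_snd)
  convert h1.fst_image using 1
  ext y
  constructor
  · rintro ⟨x, hx, rfl⟩
    exact ⟨(f x, x), ⟨rfl, hx⟩, rfl⟩
  · rintro ⟨⟨y', x⟩, ⟨h, hx⟩, rfl⟩
    exact ⟨x, hx, h.symm⟩

/-- Agreement with Mathlib's topological notion of an analytic set in a Polish space. -/
theorem isAnalytic_iff_analyticSet {Z : Type} [TopologicalSpace Z] [PolishSpace Z]
    [MeasurableSpace Z] [BorelSpace Z] {A : Set Z} : IsAnalytic A ↔ AnalyticSet A := by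
  constructor
  · rintro ⟨C, hC, rfl⟩
    exact hC.analyticSet_image measurable_fst
  · intro h
    rw [AnalyticSet] at h
    rcases h with rfl | ⟨f, hf, rfl⟩
    · exact isAnalytic_of_measurableSet MeasurableSet.empty
    · rw [← image_univ]
      exact (isAnalytic_of_measurableSet MeasurableSet.univ).image hf.measurable

/-- A universal analytic set, with parameters in the Cantor space. -/
theorem exists_universal (Z : Type) [TopologicalSpace Z] [PolishSpace Z]
    [MeasurableSpace Z] [BorelSpace Z] :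
    ∃ U : Set ((ℕ → Bool) × Z), IsAnalytic U ∧
      ∀ A : Set Z, IsAnalytic A → ∃ p, ∀ z, z ∈ A ↔ (p, z) ∈ U := by
  classical
  obtain ⟨b, b_count, -, hb⟩ := TopologicalSpace.exists_countable_basis (Z × (ℕ → ℕ))
  obtain ⟨V, hV⟩ := (b_count.insert ∅).exists_eq_range (insert_nonempty _ _)
  have hVopen : ∀ n, IsOpen (V n) := by
    intro n
    have : V n ∈ insert ∅ b := by rw [hV]; exact mem_range_self n
    rcases this with h | h
    · rw [h]; exact isOpen_empty
    · exact hb.isOpen h
  refine ⟨Prod.fst '' {q : ((ℕ → Bool) × Z) × (ℕ → ℕ) |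
      ∀ n, q.1.1 n = true → (q.1.2, q.2) ∉ V n}, ⟨_, ?_, rfl⟩, ?_⟩
  · have : {q : ((ℕ → Bool) × Z) × (ℕ → ℕ) | ∀ n, q.1.1 n = true → (q.1.2, q.2) ∉ V n}
        = ⋂ n, ((fun q : ((ℕ → Bool) × Z) × (ℕ → ℕ) => q.1.1 n) ⁻¹' {true})ᶜ ∪
          ((fun q : ((ℕ → Bool) × Z) × (ℕ → ℕ) => (q.1.2, q.2)) ⁻¹' (V n))ᶜ := by
      ext q
      simp only [mem_ofPred_eq, mem_iInter, mem_union, mem_compl_iff, mem_preimage,
        mem_singleton_iff]
      exact forall_congr' fun n => imp_iff_not_or
    rw [this]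
    refine MeasurableSet.iInter fun n => MeasurableSet.union ?_ ?_
    · exact (((measurable_pi_apply n).comp (measurable_fst.comp measurable_fst))
        (measurableSet_singleton true)).compl
    · exact (((measurable_snd.comp measurable_fst).prodMk measurable_snd)
        (hVopen n).measurableSet).compl
  · intro A hA
    have hK : ∃ K : Set (Z × (ℕ → ℕ)), IsClosed K ∧ A = Prod.fst '' K := by
      have h := isAnalytic_iff_analyticSet.1 hA
      rw [AnalyticSet] at h
      rcases h with rfl | ⟨f, hf, rfl⟩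
      · exact ⟨∅, isClosed_empty, by simp⟩
      · refine ⟨{q | q.1 = f q.2}, isClosed_eq continuous_fst (hf.comp continuous_snd), ?_⟩
        ext z
        constructor
        · rintro ⟨t, rfl⟩
          exact ⟨(f t, t), rfl, rfl⟩
        · rintro ⟨⟨z', t⟩, h, rfl⟩
          exact ⟨t, h.symm⟩
    obtain ⟨K, hKc, rfl⟩ := hK
    have key : ∀ q : Z × (ℕ → ℕ),
        q ∈ K ↔ ∀ n, decide (Disjoint (V n) K) = true → q ∉ V n := by
      intro q
      constructor
      · intro hq n hn hqV
        exact Set.disjoint_left.1 (of_decide_eq_true hn) hqV hq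
      · intro h
        by_contra hq
        obtain ⟨v, hvb, hqv, hvK⟩ := hb.exists_subset_of_mem_open (show q ∈ Kᶜ from hq)
          hKc.isOpen_compl
        have : v ∈ range V := by rw [← hV]; exact Or.inr hvb
        obtain ⟨n, rfl⟩ := this
        refine h n (decide_eq_true ?_) hqv
        exact Set.disjoint_left.2 fun a ha haK => hvK ha haK
    refine ⟨fun n => decide (Disjoint (V n) K), fun z => ?_⟩
    constructor
    · rintro ⟨⟨z', t⟩, hq, rfl⟩
      exact ⟨((_, z'), t), (key _).1 hq, rfl⟩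
    · rintro ⟨⟨⟨p', z'⟩, t⟩, hq, h⟩
      simp only [Prod.mk.injEq] at h
      obtain ⟨rfl, rfl⟩ := h
      exact ⟨(z', t), (key _).2 hq, rfl⟩

/-- An analytic subset of the Cantor space that is not Borel. -/
theorem exists_analytic_not_measurable :
    ∃ D : Set (ℕ → Bool), IsAnalytic D ∧ ¬ MeasurableSet D := by
  have : PolishSpace (ℕ → Bool) := ⟨⟩
  obtain ⟨U, hU, huniv⟩ := exists_universal (ℕ → Bool)
  refine ⟨(fun p => (p, p)) ⁻¹' U, hU.preimage (measurable_id.prodMk measurable_id), fun h => ?_⟩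
  obtain ⟨q, hq⟩ := huniv _ (isAnalytic_of_measurableSet h.compl)
  have := hq q
  simp only [mem_compl_iff, mem_preimage] at this
  exact iff_not_self this.symm

end Pool.Agent.P.MP_930073_lc
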