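import Mathlib

/-!
Definitions for problem MP_930073_lc (invariant universality of analytic quasi-orders).
A standard Borel space is a type with a `MeasurableSpace` and a `StandardBorelSpace` instance;
Borel sets are the measurable sets and Borel maps are the measurable maps.
-/

namespace Pool.Agent.P.MP_930073_lc

/-- `A` is analytic: it is the projection of a Borel subset of `X × ℕ^ℕ`. -/
def IsAnalytic {X : Type} [MeasurableSpace X] (A : Set X) : Prop :=
  ∃ C : Set (X × (ℕ → ℕ)), MeasurableSet C ∧ A = Prod.fst '' C

/-- `S` is an analytic quasi-order: reflexive, transitive, and analytic as a subset of `X × X`. -/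
def IsAnalyticQuasiOrder {X : Type} [MeasurableSpace X] (S : X → X → Prop) : Prop :=
  (∀ x, S x x) ∧ (∀ x y z, S x y → S y z → S x z) ∧ IsAnalytic {p : X × X | S p.1 p.2}

/-- `E` is an analytic equivalence relation. -/
def IsAnalyticEquivalence {X : Type} [MeasurableSpace X] (E : X → X → Prop) : Prop :=
  Equivalence E ∧ IsAnalytic {p : X × X | E p.1 p.2}

/-- Borel reducibility `R ≤_B R'`. -/
def BorelReducible {X Y : Type} [MeasurableSpace X] [MeasurableSpace Y]
    (R : X → X → Prop) (R' : Y → Y → Prop) : Prop :=
  ∃ f : X → Y, Measurable f ∧ ∀ x y, R x y ↔ R' (f x) (f y)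

/-- `(S, E)` is invariantly universal: for every analytic quasi-order `R` on a standard Borel
space there is an `E`-invariant Borel set `B` such that `S` restricted to `B` is Borel
bireducible with `R`. -/
def InvariantlyUniversal {X : Type} [MeasurableSpace X] (S E : X → X → Prop) : Prop :=
  ∀ (Y : Type) [MeasurableSpace Y] [StandardBorelSpace Y] (R : Y → Y → Prop),
    IsAnalyticQuasiOrder R →
      ∃ B : Set X, MeasurableSet B ∧ (∀ x y, E x y → x ∈ B → y ∈ B) ∧
        BorelReducible (fun x y : B => S x.1 y.1) R ∧ BorelReducible R (fun x y : B => S x.1 y.1)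

end Pool.Agent.P.MP_930073_lc
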