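import Pool.Agent.P.MP_930073_lc.Analytic

/-!
A universal analytic quasi-order and the counterexample.
-/

namespace Pool.Agent.P.MP_930073_lc

open Set MeasureTheory Relation

theorem reflTransGen_iff_seq {α : Type} (r : α → α → Prop) (x y : α) :
    ReflTransGen r x y ↔
      ∃ n : ℕ, ∃ s : ℕ → α, s 0 = x ∧ s n = y ∧ ∀ i, i < n → r (s i) (s (i + 1)) := by
  constructor
  · intro h
    induction h with
    | refl => exact ⟨0, fun _ => x, rfl, rfl, fun i hi => absurd hi (Nat.not_lt_zero i)⟩
    | @tail b c _ hbc ih =>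
      obtain ⟨n, s, h0, hn, hs⟩ := ih
      refine ⟨n + 1, fun i => if i ≤ n then s i else c, by simpa using h0, by simp, ?_⟩
      intro i hi
      rcases Nat.lt_succ_iff_lt_or_eq.1 hi with h | rfl
      · have h1 : i ≤ n := h.le
        have h2 : i + 1 ≤ n := h
        simpa [h1, h2] using hs i h
      · simpa [hn] using hbc
  · rintro ⟨n, s, rfl, rfl, hs⟩
    induction n with
    | zero => exact ReflTransGen.refl
    | succ n ih =>
      exact (ih fun i hi => hs i (Nat.lt_succ_of_lt hi)).tail (hs n (Nat.lt_succ_self n))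

/-- A universal analytic quasi-order: every analytic quasi-order on a standard Borel space is
Borel isomorphic to its restriction to a Borel set. -/
theorem exists_universal_quasiOrder :
    ∃ U : (ℕ → Bool) × (ℕ → Bool) → (ℕ → Bool) × (ℕ → Bool) → Prop,
      IsAnalyticQuasiOrder U ∧
      ∀ (Y : Type) [MeasurableSpace Y] [StandardBorelSpace Y] (R : Y → Y → Prop),
        IsAnalyticQuasiOrder R → ∃ f : Y → (ℕ → Bool) × (ℕ → Bool),
          MeasurableEmbedding f ∧ ∀ x y, R x y ↔ U (f x) (f y) := by
  have : PolishSpace (ℕ → Bool) := ⟨⟩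
  have : PolishSpace ((ℕ → Bool) × (ℕ → Bool)) := ⟨⟩
  obtain ⟨V, hV, huniv⟩ := exists_universal ((ℕ → Bool) × (ℕ → Bool))
  refine ⟨fun u v => u.1 = v.1 ∧ ReflTransGen (fun a b => (u.1, (a, b)) ∈ V) u.2 v.2,
    ⟨fun u => ⟨rfl, ReflTransGen.refl⟩, ?_, ?_⟩, ?_⟩
  · rintro ⟨p, a⟩ ⟨q, b⟩ ⟨r, c⟩ ⟨h1, h2⟩ ⟨h3, h4⟩
    simp only at h1 h2 h3 h4
    subst h1 h3
    exact ⟨rfl, h2.trans h4⟩
  · let P := ℕ → Bool
    have h1 : IsAnalytic {w : (P × P) × (P × P) | w.1.1 = w.2.1} :=
      isAnalytic_of_measurableSet (measurableSet_eq_fun (measurable_fst.comp measurable_fst)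
        (measurable_fst.comp measurable_snd))
    have h2 : ∀ n : ℕ, IsAnalytic {q : ((P × P) × (P × P)) × (ℕ → P) |
        q.2 0 = q.1.1.2 ∧ q.2 n = q.1.2.2 ∧
          ∀ i, i < n → (q.1.1.1, (q.2 i, q.2 (i + 1))) ∈ V} := by
      intro n
      have ha : IsAnalytic {q : ((P × P) × (P × P)) × (ℕ → P) | q.2 0 = q.1.1.2} :=
        isAnalytic_of_measurableSet (measurableSet_eq_fun
          ((measurable_pi_apply 0).comp measurable_snd)
          (measurable_snd.comp (measurable_fst.comp measurable_fst)))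
      have hb : IsAnalytic {q : ((P × P) × (P × P)) × (ℕ → P) | q.2 n = q.1.2.2} :=
        isAnalytic_of_measurableSet (measurableSet_eq_fun
          ((measurable_pi_apply n).comp measurable_snd)
          (measurable_snd.comp (measurable_snd.comp measurable_fst)))
      have hc : IsAnalytic (⋂ i : ℕ, {q : ((P × P) × (P × P)) × (ℕ → P) |
          i < n → (q.1.1.1, (q.2 i, q.2 (i + 1))) ∈ V}) := by
        refine isAnalytic_iInter fun i => ?_
        by_cases hi : i < n
        · have hm : Measurable (fun q : ((P × P) × (P × P)) × (ℕ → P) =>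
              (q.1.1.1, (q.2 i, q.2 (i + 1)))) :=
            (measurable_fst.comp (measurable_fst.comp measurable_fst)).prodMk
              (((measurable_pi_apply i).comp measurable_snd).prodMk
                ((measurable_pi_apply (i + 1)).comp measurable_snd))
          have := hV.preimage hm
          convert this using 1
          ext q
          simp [hi]
        · simp only [hi, false_imp_iff, ofPred_true]
          exact isAnalytic_of_measurableSet MeasurableSet.univ
      convert ha.inter (hb.inter hc) using 1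
      ext q
      simp only [mem_ofPred_eq, mem_inter_iff, mem_iInter]
    have h3 := h1.inter (isAnalytic_iUnion fun n => (h2 n).fst_image)
    convert h3 using 1
    ext w
    simp only [mem_ofPred_eq, mem_inter_iff, mem_iUnion, mem_image, reflTransGen_iff_seq]
    refine and_congr Iff.rfl (exists_congr fun n => ?_)
    constructor
    · rintro ⟨s, hs⟩
      exact ⟨(w, s), hs, rfl⟩
    · rintro ⟨⟨w', s⟩, hs, rfl⟩
      exact ⟨s, hs⟩
  · intro Y _ _ R hR
    obtain ⟨e, emeas, einj⟩ :=
      MeasurableSpace.measurable_injection_nat_bool_of_countablySeparated Y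
    have hA : IsAnalytic ((Prod.map e e) '' {p : Y × Y | R p.1 p.2}) :=
      hR.2.2.image (emeas.prodMap emeas)
    obtain ⟨p, hp⟩ := huniv _ hA
    refine ⟨fun y => (p, e y), (measurable_const.prodMk emeas).measurableEmbedding
      (fun x y h => einj (congrArg Prod.snd h)), fun x y => ?_⟩
    constructor
    · intro h
      exact ⟨rfl, ReflTransGen.single ((hp _).1 ⟨(x, y), h, rfl⟩)⟩
    · rintro ⟨-, h⟩
      have key : ∀ b, ReflTransGen (fun a b => (p, (a, b)) ∈ V) (e x) b →
          ∃ y', b = e y' ∧ R x y' := by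
        intro b hb
        induction hb with
        | refl => exact ⟨x, rfl, hR.1 x⟩
        | tail _ hbc ih =>
          obtain ⟨y', rfl, hy'⟩ := ih
          obtain ⟨⟨y1, y2⟩, h12, h⟩ := (hp _).2 hbc
          simp only [Prod.map, Prod.mk.injEq] at h
          obtain ⟨h1, rfl⟩ := h
          obtain rfl := einj h1
          exact ⟨y2, rfl, hR.2.1 _ _ _ hy' h12⟩
      obtain ⟨y', hy, hy'⟩ := key _ h
      obtain rfl := einj hy
      exact hy'

theorem counterexample :
    ∃ (X : Type) (_ : MeasurableSpace X) (_ : StandardBorelSpace X) (S E F : X → X → Prop),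
      IsAnalyticQuasiOrder S ∧ IsAnalyticEquivalence E ∧ IsAnalyticEquivalence F ∧
      (∀ x y, E x y → S x y ∧ S y x) ∧ (∀ x y, F x y → S x y ∧ S y x) ∧
      InvariantlyUniversal S F ∧ BorelReducible E F ∧ ¬ InvariantlyUniversal S E := by
  classical
  obtain ⟨U, hU, huniv⟩ := exists_universal_quasiOrder
  obtain ⟨D, hD, hDn⟩ := exists_analytic_not_measurable
  obtain ⟨a₀, ha₀, a₁, ha₁, hne⟩ : D.Nontrivial := by
    by_contra h
    exact hDn (Set.not_nontrivial_iff.1 h).measurableSet
  let P := ℕ → Bool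
  let S : (P × P) × P → (P × P) × P → Prop := fun w w' =>
    w = w' ∨ (w.2 ∈ D ∧ w'.2 ∈ D ∧ U w.1 w'.1)
  let E : (P × P) × P → (P × P) × P → Prop := fun w w' => S w w' ∧ S w' w
  let F : (P × P) × P → (P × P) × P → Prop := fun w w' =>
    w = w' ∨ (w.2 ≠ a₀ ∧ w'.2 ≠ a₀ ∧ E w w')
  have Srefl : ∀ w, S w w := fun w => Or.inl rfl
  have Strans : ∀ x y z, S x y → S y z → S x z := by
    rintro x y z (rfl | ⟨h1, h2, h3⟩) (rfl | ⟨h4, h5, h6⟩)
    · exact Or.inl rfl
    · exact Or.inr ⟨h4, h5, h6⟩
    · exact Or.inr ⟨h1, h2, h3⟩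
    · exact Or.inr ⟨h1, h5, hU.2.1 _ _ _ h3 h6⟩
  have hdiag : IsAnalytic {p : ((P × P) × P) × ((P × P) × P) | p.1 = p.2} :=
    isAnalytic_of_measurableSet (measurableSet_eq_fun measurable_fst measurable_snd)
  have San : IsAnalytic {p : ((P × P) × P) × ((P × P) × P) | S p.1 p.2} := by
    have h1 := hD.preimage (X := ((P × P) × P) × ((P × P) × P))
      (measurable_snd.comp measurable_fst)
    have h2 := hD.preimage (X := ((P × P) × P) × ((P × P) × P))
      (measurable_snd.comp measurable_snd)
    have h3 := hU.2.2.preimage (X := ((P × P) × P) × ((P × P) × P))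
      ((measurable_fst.comp measurable_fst).prodMk (measurable_fst.comp measurable_snd))
    exact hdiag.union (h1.inter (h2.inter h3))
  have Eeq : Equivalence E :=
    ⟨fun w => ⟨Srefl w, Srefl w⟩, fun h => ⟨h.2, h.1⟩,
      fun h h' => ⟨Strans _ _ _ h.1 h'.1, Strans _ _ _ h'.2 h.2⟩⟩
  have Ean : IsAnalytic {p : ((P × P) × P) × ((P × P) × P) | E p.1 p.2} :=
    San.inter (San.preimage measurable_swap)
  have Feq : Equivalence F := by
    refine ⟨fun w => Or.inl rfl, ?_, ?_⟩
    · rintro x y (rfl | ⟨h1, h2, h3⟩)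
      · exact Or.inl rfl
      · exact Or.inr ⟨h2, h1, Eeq.symm h3⟩
    · rintro x y z (rfl | ⟨h1, h2, h3⟩) (rfl | ⟨h4, h5, h6⟩)
      · exact Or.inl rfl
      · exact Or.inr ⟨h4, h5, h6⟩
      · exact Or.inr ⟨h1, h2, h3⟩
      · exact Or.inr ⟨h1, h5, Eeq.trans h3 h6⟩
  have Fan : IsAnalytic {p : ((P × P) × P) × ((P × P) × P) | F p.1 p.2} := by
    have h0 : IsAnalytic ({a₀}ᶜ : Set P) :=
      isAnalytic_of_measurableSet (measurableSet_singleton a₀).compl
    have h1 := h0.preimage (X := ((P × P) × P) × ((P × P) × P))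
      (measurable_snd.comp measurable_fst)
    have h2 := h0.preimage (X := ((P × P) × P) × ((P × P) × P))
      (measurable_snd.comp measurable_snd)
    exact hdiag.union (h1.inter (h2.inter Ean))
  refine ⟨(P × P) × P, inferInstance, inferInstance, S, E, F, ⟨Srefl, Strans, San⟩, ⟨Eeq, Ean⟩,
    ⟨Feq, Fan⟩, fun x y h => h, ?_, ?_, ?_, ?_⟩
  · rintro x y (rfl | ⟨-, -, h⟩)
    · exact ⟨Srefl _, Srefl _⟩
    · exact h
  · intro Y _ _ R hR
    obtain ⟨f, hf, hRf⟩ := huniv Y R hR
    have hg : MeasurableEmbedding (fun y => ((f y, a₀) : (P × P) × P)) :=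
      (hf.measurable.prodMk measurable_const).measurableEmbedding
        (fun x y h => hf.injective (congrArg Prod.fst h))
    have hS : ∀ x y, R x y ↔ S (f x, a₀) (f y, a₀) := by
      intro x y
      constructor
      · intro h
        exact Or.inr ⟨ha₀, ha₀, (hRf x y).1 h⟩
      · rintro (h | ⟨-, -, h⟩)
        · obtain rfl := hg.injective h
          exact hR.1 x
        · exact (hRf x y).2 h
    refine ⟨range (fun y => ((f y, a₀) : (P × P) × P)), hg.measurableSet_range, ?_, ?_, ?_⟩
    · rintro x y (rfl | ⟨h, -, -⟩) hx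
      · exact hx
      · obtain ⟨y', rfl⟩ := hx
        exact absurd rfl h
    · refine ⟨hg.equivRange.symm, hg.equivRange.symm.measurable, fun x y => ?_⟩
      obtain ⟨x', rfl⟩ := hg.equivRange.surjective x
      obtain ⟨y', rfl⟩ := hg.equivRange.surjective y
      rw [MeasurableEquiv.symm_apply_apply, MeasurableEquiv.symm_apply_apply]
      simp only [MeasurableEmbedding.equivRange_apply]
      exact (hS x' y').symm
    · exact ⟨fun y => ⟨(f y, a₀), mem_range_self y⟩, hg.measurable.subtype_mk, hS⟩
  · let φ : (P × P) × P → (P × P) × P := fun w => if w.2 = a₀ then (w.1, a₁) else w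
    have hφ2 : ∀ w, (φ w).2 ≠ a₀ := by
      intro w
      by_cases h : w.2 = a₀
      · simpa [φ, h] using hne.symm
      · simp [φ, h]
    have hφE : ∀ w, E w (φ w) := by
      intro w
      by_cases h : w.2 = a₀
      · have h1 : φ w = (w.1, a₁) := by simp [φ, h]
        have h2 : w.2 ∈ D := h ▸ ha₀
        rw [h1]
        exact ⟨Or.inr ⟨h2, ha₁, hU.1 _⟩, Or.inr ⟨ha₁, h2, hU.1 _⟩⟩
      · have h1 : φ w = w := by simp [φ, h]
        rw [h1]
        exact Eeq.refl w
    refine ⟨φ, ?_, fun x y => ?_⟩
    · refine Measurable.ite ?_ (measurable_fst.prodMk measurable_const) measurable_id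
      exact measurable_snd (measurableSet_singleton a₀)
    · constructor
      · intro h
        exact Or.inr ⟨hφ2 x, hφ2 y, Eeq.trans (Eeq.symm (hφE x)) (Eeq.trans h (hφE y))⟩
      · rintro (h | ⟨-, -, h⟩)
        · exact Eeq.trans (hφE x) (h ▸ Eeq.symm (hφE y))
        · exact Eeq.trans (hφE x) (Eeq.trans h (Eeq.symm (hφE y)))
  · intro h
    obtain ⟨B, hB, hinv, ⟨g, -, hg⟩, ⟨f, -, hf⟩⟩ := h Bool (fun a b => a ≤ b)
      ⟨fun a => le_refl a, fun _ _ _ => le_trans,
        isAnalytic_of_measurableSet (Set.toFinite _).measurableSet⟩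
    have h01 : S (f false).1 (f true).1 := (hf false true).1 (by decide)
    have h10 : ¬ S (f true).1 (f false).1 := fun h => absurd ((hf true false).2 h) (by decide)
    have hu : (f false).1.2 ∈ D := by
      rcases h01 with h | h
      · exact absurd (Or.inl h.symm) h10
      · exact h.1
    apply hDn
    have : D = (fun z => (((f false).1.1, z) : (P × P) × P)) ⁻¹' B := by
      ext z
      constructor
      · intro hz
        exact hinv (f false).1 _ ⟨Or.inr ⟨hu, hz, hU.1 _⟩, Or.inr ⟨hz, hu, hU.1 _⟩⟩ (f false).2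
      · intro hz
        rcases le_total (g ⟨_, hz⟩) (g (f false)) with h | h
        · rcases (hg _ _).2 h with h | h
          · have : z = (f false).1.2 := congrArg Prod.snd h
            exact this ▸ hu
          · exact h.1
        · rcases (hg _ _).2 h with h | h
          · have : (f false).1.2 = z := congrArg Prod.snd h
            exact this ▸ hu
          · exact h.2.1
    rw [this]
    exact (measurable_const.prodMk measurable_id) hB

end Pool.Agent.P.MP_930073_lc
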